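import Mathlib
import Pool.Agent.W827.BW.Fin

/-!
# Site percolation on plane triangulations: quantitative counterexamples

For every `D ≥ 2` a plane triangulation with all degrees at most `2 D + 4`, in which every finite
nonempty set `A` satisfies `|∂A| ≥ exp (√(log |A| / (2 + 9 log D)) - 1)`, and whose critical
probability for site percolation is at least `1 - (6 / D) ^ (1/4)`.
-/

set_option autoImplicit false

open MeasureTheory ProbabilityTheory Filter Topology

namespace Pool.Agent.Results.MP_92f966_pr.QuantitativePcNearOne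

/-! ### Definitions used in the statement -/

/-- `G` is drawn in the plane as a triangulation.  The vertices are distinct points `φ v` of the
plane, every edge `uv` is drawn as a simple arc `γ u v` from `φ u` to `φ v` (the same arc for `uv`
and `vu`), an arc contains no vertex besides its endpoints, two different arcs meet only at
vertices, every compact set meets only finitely many arcs, and every face, i.e. every connected
component of the complement of the drawing, has as its boundary the union of the three arcs of a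
triangle of `G`. -/
def IsPlaneTriangulation {V : Type} (G : SimpleGraph V) : Prop :=
  ∃ (φ : V → ℂ) (γ : V → V → ℝ → ℂ),
    Function.Injective φ ∧
    (∀ u v, G.Adj u v → ContinuousOn (γ u v) (Set.Icc 0 1) ∧ Set.InjOn (γ u v) (Set.Icc 0 1) ∧
        γ u v 0 = φ u ∧ γ u v 1 = φ v ∧ γ u v '' Set.Icc 0 1 = γ v u '' Set.Icc 0 1) ∧
    (∀ u v w, G.Adj u v → ∀ s ∈ Set.Icc (0:ℝ) 1, γ u v s = φ w → w = u ∨ w = v) ∧
    (∀ u v x y, G.Adj u v → G.Adj x y → ∀ s ∈ Set.Icc (0:ℝ) 1, ∀ t ∈ Set.Icc (0:ℝ) 1,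
        γ u v s = γ x y t → (u = x ∧ v = y) ∨ (u = y ∧ v = x) ∨ ∃ w, γ u v s = φ w) ∧
    (∀ K : Set ℂ, IsCompact K →
        {p : V × V | G.Adj p.1 p.2 ∧ (γ p.1 p.2 '' Set.Icc 0 1 ∩ K).Nonempty}.Finite) ∧
    (∀ z : ℂ, (∀ u v, G.Adj u v → z ∉ γ u v '' Set.Icc 0 1) →
        ∃ a b c, G.Adj a b ∧ G.Adj b c ∧ G.Adj c a ∧
          frontier (connectedComponentIn
              {y : ℂ | ∀ u v, G.Adj u v → y ∉ γ u v '' Set.Icc 0 1} z) =
            γ a b '' Set.Icc 0 1 ∪ γ b c '' Set.Icc 0 1 ∪ γ c a '' Set.Icc 0 1)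

/-- The boundary `∂A`: the edges with exactly one endpoint in `A`, each listed once as the pair
(endpoint in `A`, endpoint outside `A`). -/
def edgeBoundary {V : Type} (G : SimpleGraph V) (A : Set V) : Set (V × V) :=
  {p | p.1 ∈ A ∧ p.2 ∉ A ∧ G.Adj p.1 p.2}

/-- The isoperimetric assumption (I): there is a function `f : ℕ → [0, ∞)` with `f n → ∞` such
that `|∂A| ≥ f(|A|) log |A|` for every finite set `A` of vertices. -/
def IsoGrowth {V : Type} (G : SimpleGraph V) : Prop :=
  ∃ f : ℕ → ℝ, (∀ n, 0 ≤ f n) ∧ Tendsto f atTop atTop ∧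
    ∀ A : Set V, A.Finite → f A.ncard * Real.log A.ncard ≤ ((edgeBoundary G A).ncard : ℝ)

/-- The law of Bernoulli site percolation with parameter `p`: the sites are independent, each is
open (`true`) with probability `p`. -/
noncomputable def siteMeasure (V : Type) (p : unitInterval) : Measure (V → Bool) :=
  Measure.infinitePi (fun _ : V => bernoulliMeasure true false p)

/-- There is an infinite connected set of open vertices, i.e. an infinite open cluster. -/
def HasInfiniteOpenCluster {V : Type} (G : SimpleGraph V) (ω : V → Bool) : Prop :=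
  ∃ S : Set V, S.Infinite ∧ (∀ v ∈ S, ω v = true) ∧ (G.induce S).Connected

/-- The critical probability of site percolation: the infimum of the `p` for which an infinite
open cluster exists with positive probability. -/
noncomputable def criticalProbability {V : Type} (G : SimpleGraph V) : ℝ :=
  sInf {p : ℝ | ∃ h : p ∈ Set.Icc (0 : ℝ) 1,
    0 < siteMeasure V ⟨p, h⟩ {ω | HasInfiniteOpenCluster G ω}}


open Pool.Agent.W827.BW in
/-- the isoperimetric inequality in explicit form -/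
theorem iso_explicit (D n b : ℕ) (hD : 2 ≤ D) (hn : 1 ≤ n)
    (h : n ≤ b ^ 2 * D ^ ((lev b + 2) ^ 2)) :
    Real.exp (√(Real.log n / (2 + 9 * Real.log D)) - 1) ≤ (b : ℝ) := by
  have hb : 1 ≤ b := by
    by_contra hb
    have hb0 : b = 0 := by omega
    rw [hb0] at h
    simp at h
    omega
  have hbr : (1 : ℝ) ≤ b := by exact_mod_cast hb
  have hDr : (2 : ℝ) ≤ D := by exact_mod_cast hD
  have hx : 0 ≤ Real.log b := Real.log_nonneg hbr
  have hL : 0 < Real.log D := Real.log_pos (by linarith)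
  have hlog3 : (1 : ℝ) ≤ Real.log 3 := by
    rw [Real.le_log_iff_exp_le (by norm_num)]
    have := Real.exp_one_lt_d9
    linarith
  -- the level
  have hlev : (lev b : ℝ) ≤ 1 + Real.log b := by
    have h1 : 3 ^ lev b ≤ 2 * b + 1 := Nat.pow_log_le_self 3 (by omega)
    have h2 : (3 : ℝ) ^ lev b ≤ 3 * b := by
      have : 3 ^ lev b ≤ 3 * b := by omega
      exact_mod_cast this
    have h3 := Real.log_le_log (by positivity) h2
    rw [Real.log_pow, Real.log_mul (by norm_num) (by linarith)] at h3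
    nlinarith [(Nat.cast_nonneg (lev b) : (0 : ℝ) ≤ (lev b : ℝ))]
  have hl0 : (0 : ℝ) ≤ (lev b : ℝ) := Nat.cast_nonneg _
  have h1 : (n : ℝ) ≤ (b : ℝ) ^ 2 * (D : ℝ) ^ ((lev b + 2) ^ 2) := by exact_mod_cast h
  have hn0 : (0 : ℝ) < n := by exact_mod_cast hn
  have hD0 : (0 : ℝ) < D := by linarith
  have h2 := Real.log_le_log hn0 h1
  rw [Real.log_mul (by positivity) (by positivity), Real.log_pow, Real.log_pow] at h2
  push_cast at h2
  have h3 : ((lev b : ℝ) + 2) ^ 2 ≤ (3 + Real.log b) ^ 2 :=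
    pow_le_pow_left₀ (by linarith) (by linarith) 2
  have h4 : (3 + Real.log b) ^ 2 ≤ 9 * (1 + Real.log b) ^ 2 := by nlinarith
  have h5 : Real.log n ≤ (2 + 9 * Real.log D) * (1 + Real.log b) ^ 2 := by
    calc Real.log n ≤ 2 * Real.log b + ((lev b : ℝ) + 2) ^ 2 * Real.log D := h2
      _ ≤ 2 * (1 + Real.log b) ^ 2 + 9 * (1 + Real.log b) ^ 2 * Real.log D := by
          have h6 : ((lev b : ℝ) + 2) ^ 2 * Real.log D ≤ 9 * (1 + Real.log b) ^ 2 * Real.log D :=
            mul_le_mul_of_nonneg_right (h3.trans h4) hL.le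
          nlinarith
      _ = _ := by ring
  have hK : 0 < 2 + 9 * Real.log D := by linarith
  have h6 : √(Real.log n / (2 + 9 * Real.log D)) ≤ 1 + Real.log b := by
    rw [Real.sqrt_le_left (by linarith), div_le_iff₀ hK]
    linarith
  calc Real.exp (√(Real.log n / (2 + 9 * Real.log D)) - 1) ≤ Real.exp (Real.log b) :=
        Real.exp_le_exp.mpr (by linarith)
    _ = b := Real.exp_log (by linarith)

/-- the numerical condition on `p` and `D` -/
theorem cond (D : ℕ) (hD : 2 ≤ D) (p : ℝ) (hp0 : 0 ≤ p)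
    (hp : p ≤ 1 - (6 / (D : ℝ)) ^ (1 / 4 : ℝ)) :
    p < 1 ∧ (1 - (1 - p) ^ 4 / 8) ^ D ≤ 1 / 2 := by
  have hD0 : (0 : ℝ) < D := by
    have : 0 < D := by omega
    exact_mod_cast this
  have h6 : (0 : ℝ) < 6 / D := by positivity
  have hr : 0 < (6 / (D : ℝ)) ^ (1 / 4 : ℝ) := Real.rpow_pos_of_pos h6 _
  have h1 : (6 / (D : ℝ)) ^ (1 / 4 : ℝ) ≤ 1 - p := by linarith
  have h2 : 6 / (D : ℝ) ≤ (1 - p) ^ 4 := by
    have h3 := pow_le_pow_left₀ hr.le h1 4
    rw [← Real.rpow_natCast, ← Real.rpow_mul h6.le] at h3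
    norm_num at h3
    exact h3
  have h1p : (1 - p) ^ 4 ≤ 1 := pow_le_one₀ (by linarith) (by linarith)
  refine ⟨by linarith, ?_⟩
  have h4 : 1 - (1 - p) ^ 4 / 8 ≤ Real.exp (-((1 - p) ^ 4 / 8)) := by
    have := Real.add_one_le_exp (-((1 - p) ^ 4 / 8))
    linarith
  calc (1 - (1 - p) ^ 4 / 8) ^ D ≤ (Real.exp (-((1 - p) ^ 4 / 8))) ^ D :=
        pow_le_pow_left₀ (by linarith) h4 D
    _ = Real.exp (-(D * ((1 - p) ^ 4 / 8))) := by
        rw [← Real.exp_nat_mul]; congr 1; ring
    _ ≤ Real.exp (-(3 / 4)) := by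
        apply Real.exp_le_exp.mpr
        have h5 : (D : ℝ) * (6 / D) ≤ D * (1 - p) ^ 4 := mul_le_mul_of_nonneg_left h2 hD0.le
        have h7 : (D : ℝ) * (6 / D) = 6 := by field_simp
        linarith
    _ ≤ 1 / 2 := by
        rw [Real.exp_neg, one_div]
        apply inv_anti₀ (by norm_num)
        have := Real.quadratic_le_exp_of_nonneg (show (0 : ℝ) ≤ 3 / 4 by norm_num)
        norm_num at this ⊢
        linarith

/-- **Quantitative negative answer to Q1.** For every `D ≥ 2` there is a plane triangulation with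
all degrees at most `2 D + 4` such that `|∂A| ≥ exp (√(log |A| / (2 + 9 log D)) - 1)` for all
finite nonempty sets `A` of vertices (in particular (I) holds, and `|∂A|` grows faster than every
power of `log |A|`), such that for every `p ≤ 1 - (6 / D) ^ (1/4)` there is almost surely no
infinite open cluster, and whose critical probability is at least `1 - (6 / D) ^ (1/4)`. -/
theorem result : ∀ D : ℕ, 2 ≤ D → ∃ (V : Type) (G : SimpleGraph V),
    Countable V ∧ Infinite V ∧ G.Connected ∧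
    (∀ v : V, (G.neighborSet v).Finite ∧ (G.neighborSet v).ncard ≤ 2 * D + 4) ∧
    IsPlaneTriangulation G ∧
    (∀ A : Set V, A.Finite → A.Nonempty →
      Real.exp (√(Real.log A.ncard / (2 + 9 * Real.log D)) - 1) ≤
        ((edgeBoundary G A).ncard : ℝ)) ∧
    IsoGrowth G ∧
    (∀ p : unitInterval, (p : ℝ) ≤ 1 - (6 / (D : ℝ)) ^ (1 / 4 : ℝ) →
      siteMeasure V p {ω | HasInfiniteOpenCluster G ω} = 0) ∧
    1 - (6 / (D : ℝ)) ^ (1 / 4 : ℝ) ≤ criticalProbability G := by
  intro D hD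
  have hDZ : (2 : ℤ) ≤ (D : ℤ) := by exact_mod_cast hD
  have hgood : Pool.Agent.W827.BW.Good (Pool.Agent.W827.BW.al D Pool.Agent.W827.BW.ww) :=
    Pool.Agent.W827.BW.t_GOOD D Pool.Agent.W827.BW.ww hDZ
  have hconn : (Pool.Agent.W827.BW.Wall D Pool.Agent.W827.BW.ww).Connected :=
    Pool.Agent.W827.BW.t_CONN _ hgood
  have hRING : Pool.Agent.W827.BW.S_RING :=
    Pool.Agent.W427.BW.t_RING (Pool.Agent.W308.BW.t_EXC Pool.Agent.W880.BW.t_LEV
      Pool.Agent.W880.BW.t_UREC) Pool.Agent.W439.BW.Rel.t_EXCB Pool.Agent.W439.BW.Rel.t_REL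
  have hBLOCK : Pool.Agent.W827.BW.S_BLOCK :=
    Pool.Agent.W308.BW.t_BLOCK Pool.Agent.W880.BW.t_LEV Pool.Agent.W880.BW.t_STEP
  have hDEG := Pool.Agent.W880.BW.t_DEG D Pool.Agent.W827.BW.ww hDZ
  have hTOP : Pool.Agent.W827.BW.S_TOP :=
    Pool.Agent.W827.BW.t_TOP Pool.Agent.W932.BW.t_TOP1 Pool.Agent.W397.BW.t_TOP2
      Pool.Agent.W932.BW.t_TOP3 Pool.Agent.W827.BW.t_TOP4
  have hISO := Pool.Agent.W407.BW.t_ISO Pool.Agent.W880.BW.t_DEG D Pool.Agent.W827.BW.ww
    (fun n => (Pool.Agent.W827.BW.lev n + 2) ^ 2) hD Pool.Agent.W880.BW.t_STEP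
    Pool.Agent.W827.BW.t_SUBL.1 Pool.Agent.W827.BW.t_OSC
  have hno : ∀ p : unitInterval, (p : ℝ) ≤ 1 - (6 / (D : ℝ)) ^ (1 / 4 : ℝ) →
      siteMeasure (ℤ × ℤ) p {ω | HasInfiniteOpenCluster
        (Pool.Agent.W827.BW.Wall D Pool.Agent.W827.BW.ww) ω} = 0 := by
    intro p hp
    obtain ⟨h1, h2⟩ := cond D hD p p.2.1 hp
    exact Pool.Agent.W827.BW.no_perc hRING hBLOCK D hD p h1 h2
  refine ⟨ℤ × ℤ, Pool.Agent.W827.BW.Wall D Pool.Agent.W827.BW.ww, inferInstance, inferInstance,
    hconn, fun v => ⟨(hDEG v).1, ?_⟩, hTOP _ hgood, ?_, ?_, hno, ?_⟩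
  · have := (hDEG v).2
    exact_mod_cast this
  · intro A hA hne
    exact iso_explicit D A.ncard _ hD ((Set.ncard_pos hA).2 hne) (hISO A hA)
  · exact Pool.Agent.W880.BW.t_ISOF (ℤ × ℤ) (Pool.Agent.W827.BW.Wall D Pool.Agent.W827.BW.ww)
      inferInstance D (fun n => (Pool.Agent.W827.BW.lev n + 2) ^ 2) hD
      Pool.Agent.W827.BW.t_SUBL.2 hISO
  · unfold criticalProbability
    apply le_csInf
    · exact ⟨1, ⟨by norm_num, Pool.Agent.W827.BW.one_mem _ hconn⟩⟩
    · rintro p ⟨h, hpos⟩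
      by_contra hlt
      push Not at hlt
      exact hpos.ne' (hno ⟨p, h⟩ hlt.le)

end Pool.Agent.Results.MP_92f966_pr.QuantitativePcNearOne
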